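import Mathlib
import Pool.Agent.LinExt.Core

set_option autoImplicit false

namespace Pool.Agent.Results.MP_f1b527_co.Exact

open Pool.Agent.LinExt

/-- the number of comparable pairs of a partial order on `Fin n` (each pair counted once, as the
ordered pair `(a, b)` with `a < b`) -/
noncomputable def comparablePairs {n : ℕ} (P : PartialOrder (Fin n)) : ℕ :=
  Nat.card {p : Fin n × Fin n // P.lt p.1 p.2}

/-- the number of linear extensions of a partial order on `Fin n`: a linear order on `Fin n`
is given by the bijection sending every point to its position -/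
noncomputable def linExt {n : ℕ} (P : PartialOrder (Fin n)) : ℕ :=
  Nat.card {σ : Equiv.Perm (Fin n) // ∀ a b, P.le a b → σ a ≤ σ b}

/-- `e(n,k)`: the largest number of linear extensions of a poset on `n` points with exactly
`k` comparable pairs (and `0` if there is none) -/
noncomputable def e (n k : ℕ) : ℕ :=
  sSup {c | ∃ P : PartialOrder (Fin n), comparablePairs P = k ∧ linExt P = c}

lemma linExt_le_ncard {n : ℕ} (P : PartialOrder (Fin n)) :
    linExt P ≤ (LE P.lt (Finset.univ : Finset (Fin n))).ncard := by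
  classical
  have hirr : ∀ a, ¬ P.lt a a := fun a h => (P.lt_iff_le_not_ge a a |>.mp h).2 (P.lt_iff_le_not_ge a a |>.mp h).1
  obtain ⟨hfin, -⟩ := main_bound P.lt hirr 0 n (Finset.univ : Finset (Fin n)) (by simp)
  rw [linExt, ← Nat.card_coe_set_eq]
  have : Finite (LE P.lt (Finset.univ : Finset (Fin n))) := hfin
  apply Nat.card_le_card_of_injective
    (f := fun σ : {σ : Equiv.Perm (Fin n) // ∀ a b, P.le a b → σ a ≤ σ b} =>
      (⟨List.ofFn (fun i => σ.1.symm i), by
        refine ⟨?_, ?_, ?_⟩
        · exact List.nodup_ofFn.mpr σ.1.symm.injective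
        · ext x
          simp only [List.mem_toFinset, List.mem_ofFn, Finset.mem_univ, iff_true]
          exact ⟨σ.1 x, by simp⟩
        · rw [List.pairwise_ofFn]
          intro i j hij hh
          have := σ.2 _ _ ((P.lt_iff_le_not_ge _ _).mp hh).1
          simp only [Equiv.apply_symm_apply] at this
          exact absurd this (not_le.mpr hij)⟩ : (LE P.lt (Finset.univ : Finset (Fin n)))))
  intro σ τ h
  have h0 := congrArg Subtype.val h
  have h' := List.ofFn_injective h0
  apply Subtype.ext
  have h3 : σ.1.symm = τ.1.symm := by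
    ext i
    exact congrArg Fin.val (congrFun h' i)
  have := congrArg Equiv.symm h3
  simpa using this

lemma linExt_bound {n : ℕ} (P : PartialOrder (Fin n)) (J : ℕ) :
    (linExt P : ℝ) * ∏ j ∈ Finset.range J, Q n (comparablePairs P) (j + 1)
      ≤ (J.factorial : ℝ) * ((n + J).factorial : ℝ) := by
  classical
  have hirr : ∀ a, ¬ P.lt a a := fun a h => (P.lt_iff_le_not_ge a a |>.mp h).2 (P.lt_iff_le_not_ge a a |>.mp h).1
  obtain ⟨-, hb⟩ := main_bound P.lt hirr J n (Finset.univ : Finset (Fin n)) (by simp)
  have hcardk : (prs P.lt (Finset.univ : Finset (Fin n))).card = comparablePairs P := by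
    rw [comparablePairs, Nat.card_eq_fintype_card, Fintype.card_subtype]
    congr 1
  rw [hcardk] at hb
  simp only [Finset.card_univ, Fintype.card_fin] at hb
  refine le_trans ?_ hb
  apply mul_le_mul_of_nonneg_right
  · exact_mod_cast linExt_le_ncard P
  · apply Finset.prod_nonneg
    intro j _
    exact (Q_pos (Nat.cast_nonneg _) (Nat.cast_nonneg _) j).le

lemma set_bdd (n k : ℕ) :
    BddAbove {c | ∃ P : PartialOrder (Fin n), comparablePairs P = k ∧ linExt P = c} := by
  refine ⟨n.factorial, ?_⟩
  rintro c ⟨P, -, rfl⟩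
  have h := linExt_bound P 0
  simp only [Finset.range_zero, Finset.prod_empty, mul_one, Nat.factorial_zero, Nat.cast_one, one_mul,
    add_zero] at h
  exact_mod_cast h

lemma le_e {n k : ℕ} (P : PartialOrder (Fin n)) (h : comparablePairs P = k) : linExt P ≤ e n k :=
  le_csSup (set_bdd n k) ⟨P, h, rfl⟩

lemma e_le {n k B : ℕ} (h : ∀ P : PartialOrder (Fin n), comparablePairs P = k → linExt P ≤ B) :
    e n k ≤ B := by
  apply csSup_le'
  rintro c ⟨P, hP, rfl⟩
  exact h P hP

lemma e_attained (n k : ℕ) (h : e n k ≠ 0) :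
    ∃ P : PartialOrder (Fin n), comparablePairs P = k ∧ linExt P = e n k := by
  have hne : {c | ∃ P : PartialOrder (Fin n), comparablePairs P = k ∧ linExt P = c}.Nonempty := by
    by_contra hcon
    rw [Set.not_nonempty_iff_eq_empty] at hcon
    apply h
    rw [e, hcon]
    simp
  exact Nat.sSup_mem hne (set_bdd n k)

lemma e_bound (n k J : ℕ) :
    e n k * ∏ j ∈ Finset.range J, ((j + 1) ^ 2 + n * (j + 1) + k) ≤ J.factorial * (n + J).factorial := by
  by_cases h0 : e n k = 0
  · rw [h0]; simp
  · obtain ⟨P, hP, hc⟩ := e_attained n k h0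
    have h := linExt_bound P J
    rw [hP, hc] at h
    have : ((e n k * ∏ j ∈ Finset.range J, ((j + 1) ^ 2 + n * (j + 1) + k) : ℕ) : ℝ)
        ≤ ((J.factorial * (n + J).factorial : ℕ) : ℝ) := by
      push_cast
      unfold Q at h
      push_cast at h
      exact h
    exact_mod_cast this

lemma e_upper (n s k : ℕ) (hs : s ≤ n) (hk : s * (n - s) ≤ k) :
    e n k ≤ s.factorial * (n - s).factorial := by
  apply e_le
  intro P hP
  apply final_nat
  intro J
  have h := linExt_bound P J
  have hsn : s + (n - s) = n := by omega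
  rw [hsn]
  refine le_trans ?_ h
  apply mul_le_mul_of_nonneg_left _ (Nat.cast_nonneg _)
  apply Finset.prod_le_prod
  · intro j _
    exact (Q_pos (Nat.cast_nonneg _) (Nat.cast_nonneg _) j).le
  · intro j _
    unfold Q
    rw [hP]
    have : ((s * (n - s) : ℕ) : ℝ) ≤ k := by exact_mod_cast hk
    linarith

/-- the two level poset -/
@[instance_reducible] def bip (n s : ℕ) : PartialOrder (Fin n) where
  le a b := a = b ∨ (a.val < s ∧ s ≤ b.val)
  lt a b := a.val < s ∧ s ≤ b.val
  le_refl a := Or.inl rfl
  le_trans a b c := by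
    rintro (rfl | h1) (rfl | h2)
    · exact Or.inl rfl
    · exact Or.inr h2
    · exact Or.inr h1
    · exact Or.inr ⟨h1.1, h2.2⟩
  lt_iff_le_not_ge a b := by
    constructor
    · intro h
      refine ⟨Or.inr h, ?_⟩
      rintro (rfl | h2)
      · omega
      · omega
    · rintro ⟨rfl | h1, h2⟩
      · exact absurd (Or.inl rfl) h2
      · exact h1
  le_antisymm a b := by
    rintro (rfl | h1) (h | h2)
    · rfl
    · rfl
    · exact h.symm
    · omega

lemma comparablePairs_bip (s t : ℕ) : comparablePairs (bip (s + t) s) = s * t := by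
  rw [comparablePairs]
  have : Nat.card (Fin s × Fin t) = s * t := by simp
  rw [← this]
  apply Nat.card_congr
  refine ⟨fun p => (⟨p.1.1.val, p.2.1⟩, ⟨p.1.2.val - s, by have := p.1.2.2; have := p.2.2; omega⟩),
    fun q => ⟨(⟨q.1.val, by omega⟩, ⟨s + q.2.val, by omega⟩), by
      constructor
      · exact q.1.2
      · simp⟩, ?_, ?_⟩
  · rintro ⟨⟨a, b⟩, h⟩
    have h2 : s ≤ b.val := h.2
    apply Subtype.ext
    apply Prod.ext
    · rfl
    · apply Fin.ext
      simp only
      omega
  · rintro ⟨a, b⟩
    apply Prod.ext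
    · rfl
    · apply Fin.ext
      simp

lemma linExt_bip (s t : ℕ) : s.factorial * t.factorial ≤ linExt (bip (s + t) s) := by
  rw [linExt]
  have h1 : Nat.card (Equiv.Perm (Fin s) × Equiv.Perm (Fin t)) = s.factorial * t.factorial := by
    simp [Nat.card_prod, Fintype.card_perm]
  rw [← h1]
  apply Nat.card_le_card_of_injective
    (f := fun q : Equiv.Perm (Fin s) × Equiv.Perm (Fin t) =>
      (⟨finSumFinEquiv.permCongr (Equiv.sumCongr q.1 q.2), by
        rintro a b (rfl | h)
        · exact le_refl _
        · obtain ⟨a', rfl⟩ := finSumFinEquiv.surjective a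
          obtain ⟨b', rfl⟩ := finSumFinEquiv.surjective b
          rcases a' with a' | a'
          · rcases b' with b' | b'
            · exfalso
              have := h.2
              simp only [finSumFinEquiv_apply_left, Fin.val_castAdd] at this
              omega
            · simp only [Equiv.permCongr_apply, Equiv.symm_apply_apply, Equiv.sumCongr_apply,
                Sum.map_inl, Sum.map_inr, finSumFinEquiv_apply_left, finSumFinEquiv_apply_right]
              rw [Fin.le_def]
              simp
              omega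
          · exfalso
            have := h.1
            simp only [finSumFinEquiv_apply_right, Fin.val_natAdd] at this
            omega⟩ :
        {σ : Equiv.Perm (Fin (s + t)) // ∀ a b, (bip (s + t) s).le a b → σ a ≤ σ b}))
  intro q q' h
  have h0 := congrArg Subtype.val h
  simp only at h0
  have h2 := (finSumFinEquiv.permCongr).injective h0
  have h3 : ∀ x, Equiv.sumCongr q.1 q.2 x = Equiv.sumCongr q'.1 q'.2 x := fun x => by rw [h2]
  apply Prod.ext
  · ext x
    have := h3 (Sum.inl x)
    simp only [Equiv.sumCongr_apply, Sum.map_inl, Sum.inl.injEq] at this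
    rw [this]
  · ext x
    have := h3 (Sum.inr x)
    simp only [Equiv.sumCongr_apply, Sum.map_inr, Sum.inr.injEq] at this
    rw [this]

lemma e_exact (n s : ℕ) (hs : s ≤ n) : e n (s * (n - s)) = s.factorial * (n - s).factorial := by
  apply le_antisymm (e_upper n s _ hs le_rfl)
  obtain ⟨t, rfl⟩ := Nat.exists_eq_add_of_le hs
  have : s + t - s = t := by omega
  rw [this]
  exact (linExt_bip s t).trans (le_e _ (comparablePairs_bip s t))

/-- deleting a cover relation -/
lemma e_anti (n k : ℕ) : e n (k + 1) ≤ e n k := by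
  classical
  apply e_le
  intro P hP
  -- a strict pair with smallest interval
  have hpos : 0 < comparablePairs P := by omega
  rw [comparablePairs, Nat.card_pos_iff] at hpos
  obtain ⟨⟨p0⟩, -⟩ := hpos
  obtain ⟨⟨⟨x, y⟩, hxy⟩, -, hmin⟩ := Finset.exists_min_image
    (Finset.univ : Finset {p : Fin n × Fin n // P.lt p.1 p.2})
    (fun p => (Finset.univ.filter (fun z => P.lt p.1.1 z ∧ P.lt z p.1.2)).card) ⟨p0, Finset.mem_univ _⟩
  simp only at hxy
  have lt_le : ∀ a b, P.lt a b → P.le a b := fun a b h => ((P.lt_iff_le_not_ge a b).mp h).1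
  have irr : ∀ a, ¬ P.lt a a := fun a h => ((P.lt_iff_le_not_ge a a).mp h).2 ((P.lt_iff_le_not_ge a a).mp h).1
  have lt_tr : ∀ a b c, P.lt a b → P.lt b c → P.lt a c := fun a b c h1 h2 => by
    have := @lt_trans _ P.toPreorder a b c h1 h2
    exact this
  have ne_lt : ∀ a b, P.le a b → a ≠ b → P.lt a b := fun a b h hne => by
    rw [P.lt_iff_le_not_ge]
    exact ⟨h, fun h' => hne (P.le_antisymm a b h h')⟩
  have hcov : ∀ z, ¬ (P.lt x z ∧ P.lt z y) := by
    rintro z ⟨h1, h2⟩
    have := hmin ⟨(x, z), h1⟩ (Finset.mem_univ _)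
    simp only at this
    apply absurd this
    rw [not_le]
    apply Finset.card_lt_card
    rw [Finset.ssubset_iff_of_subset]
    · refine ⟨z, ?_, ?_⟩
      · simp [h1, h2]
      · simp only [Finset.mem_filter, Finset.mem_univ, true_and, not_and]
        intro _
        exact irr z
    · intro w hw
      simp only [Finset.mem_filter, Finset.mem_univ, true_and] at hw ⊢
      exact ⟨hw.1, lt_tr _ _ _ hw.2 h2⟩
  have hne : x ≠ y := fun h => irr x (h ▸ hxy)
  let P' : PartialOrder (Fin n) :=
    { le := fun a b => P.le a b ∧ ¬ (a = x ∧ b = y)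
      lt := fun a b => P.lt a b ∧ ¬ (a = x ∧ b = y)
      le_refl := fun a => ⟨P.le_refl a, fun h => hne (h.1.symm.trans h.2)⟩
      le_trans := fun a b c h1 h2 => by
        refine ⟨P.le_trans a b c h1.1 h2.1, ?_⟩
        rintro ⟨rfl, rfl⟩
        by_cases hb1 : a = b
        · subst hb1
          exact h2.2 ⟨rfl, rfl⟩
        · by_cases hb2 : b = c
          · subst hb2
            exact h1.2 ⟨rfl, rfl⟩
          · exact hcov b ⟨ne_lt _ _ h1.1 hb1, ne_lt _ _ h2.1 hb2⟩
      lt_iff_le_not_ge := fun a b => by
        constructor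
        · rintro ⟨h1, h2⟩
          refine ⟨⟨lt_le _ _ h1, h2⟩, fun h3 => ?_⟩
          exact ((P.lt_iff_le_not_ge a b).mp h1).2 h3.1
        · rintro ⟨⟨h1, h2⟩, h3⟩
          refine ⟨ne_lt _ _ h1 ?_, h2⟩
          rintro rfl
          exact h3 ⟨h1, h2⟩
      le_antisymm := fun a b h1 h2 => P.le_antisymm a b h1.1 h2.1 }
  have hcard : comparablePairs P' = k := by
    have h1 : comparablePairs P = comparablePairs P' + 1 := by
      rw [comparablePairs, comparablePairs, Nat.card_eq_fintype_card, Nat.card_eq_fintype_card,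
        Fintype.card_subtype, Fintype.card_subtype]
      have h2 : (Finset.univ.filter (fun p : Fin n × Fin n => P'.lt p.1 p.2))
          = (Finset.univ.filter (fun p : Fin n × Fin n => P.lt p.1 p.2)).erase (x, y) := by
        ext ⟨a, b⟩
        simp only [Finset.mem_filter, Finset.mem_univ, true_and, Finset.mem_erase, ne_eq,
          Prod.mk.injEq]
        constructor
        · rintro ⟨h1, h2⟩
          exact ⟨h2, h1⟩
        · rintro ⟨h1, h2⟩
          exact ⟨h2, h1⟩
      rw [h2, Finset.card_erase_of_mem (by simp [hxy])]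
      have h3 : 0 < (Finset.univ.filter (fun p : Fin n × Fin n => P.lt p.1 p.2)).card := by
        rw [Finset.card_pos]
        exact ⟨(x, y), by simp [hxy]⟩
      omega
    omega
  refine le_trans ?_ (le_e P' hcard)
  rw [linExt, linExt]
  apply Nat.card_le_card_of_injective
    (f := fun σ : {σ : Equiv.Perm (Fin n) // ∀ a b, P.le a b → σ a ≤ σ b} =>
      (⟨σ.1, fun a b h => σ.2 a b h.1⟩ : {σ : Equiv.Perm (Fin n) // ∀ a b, P'.le a b → σ a ≤ σ b}))
  intro σ τ h
  have h0 := congrArg Subtype.val h
  exact Subtype.ext h0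

lemma e_antitone (n : ℕ) {k l : ℕ} (h : k ≤ l) : e n l ≤ e n k := by
  induction l, h using Nat.le_induction with
  | base => exact le_rfl
  | succ l _ ih => exact (e_anti n l).trans ih

/-- Exact value of `e(n,k)` at every `k = s(n-s)`, a two sided estimate for every `k` up to
`n^2/4`, and the general upper bound from which they follow. -/
theorem result :
    (∀ n s : ℕ, s ≤ n → e n (s * (n - s)) = s.factorial * (n - s).factorial) ∧
    (∀ n s k : ℕ, s + 1 ≤ n → s * (n - s) ≤ k → k ≤ (s + 1) * (n - (s + 1)) →
      (s + 1).factorial * (n - (s + 1)).factorial ≤ e n k ∧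
        e n k ≤ s.factorial * (n - s).factorial) ∧
    (∀ n k J : ℕ, e n k * ∏ j ∈ Finset.range J, ((j + 1) ^ 2 + n * (j + 1) + k)
      ≤ J.factorial * (n + J).factorial) := by
  refine ⟨e_exact, ?_, e_bound⟩
  intro n s k hs h1 h2
  refine ⟨?_, e_upper n s k (by omega) h1⟩
  rw [← e_exact n (s + 1) hs]
  exact e_antitone n h2

end Pool.Agent.Results.MP_f1b527_co.Exact
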